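import Pool.Agent.H75.SQ.Basic

set_option autoImplicit false

open Finset Matrix Pool.Agent.H75.SQ

namespace Pool.Agent.H93.SQ.CNC

/-- the effect of an observable -/
noncomputable def half {ι : Type} [Fintype ι] [DecidableEq ι] (M : Matrix ι ι ℂ) :
    Matrix ι ι ℂ := (1 / 2 : ℂ) • (1 + M)

theorem qf_half {ι : Type} [Fintype ι] [DecidableEq ι] (M : Matrix ι ι ℂ) (a : ι → ℂ) :
    qf (half M) a = (∑ x, ‖a x‖ ^ 2 + qf M a) / 2 := by
  unfold qf half
  rw [Matrix.smul_mulVec, Matrix.add_mulVec, Matrix.one_mulVec, dotProduct_smul,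
    dotProduct_add]
  have h1 : (star a ⬝ᵥ a).re = ∑ x, ‖a x‖ ^ 2 := by
    unfold dotProduct
    rw [Complex.re_sum]
    refine Finset.sum_congr rfl fun x _ => ?_
    rw [Pi.star_apply, Complex.star_def, mul_comm, Complex.mul_conj, Complex.ofReal_re,
      Complex.normSq_eq_norm_sq]
  have h2 : ((1 / 2 : ℂ) • (star a ⬝ᵥ a + star a ⬝ᵥ M *ᵥ a)).re =
      ((star a ⬝ᵥ a).re + (star a ⬝ᵥ M *ᵥ a).re) / 2 := by
    rw [smul_eq_mul]
    have e : (1 / 2 : ℂ) = ((1 / 2 : ℝ) : ℂ) := by push_cast; rfl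
    rw [e, Complex.re_ofReal_mul, Complex.add_re]
    ring
  rw [h2, h1]

theorem eff_half {ι : Type} [Fintype ι] [DecidableEq ι] (M : Matrix ι ι ℂ) (hM : Obs M) :
    Eff (half M) := by
  constructor
  · have h : (1 + M).IsHermitian := Matrix.isHermitian_one.add hM.1
    unfold half
    unfold Matrix.IsHermitian at h ⊢
    rw [Matrix.conjTranspose_smul, h]
    congr 1
    simp
  · intro a
    rw [qf_half]
    have := abs_le.1 (hM.2 a)
    constructor <;> linarith [this.1, this.2]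

theorem obs_neg {ι : Type} [Fintype ι] (M : Matrix ι ι ℂ) (hM : Obs M) : Obs (-M) := by
  refine ⟨hM.1.neg, ?_⟩
  intro a
  have e : qf (-M) a = - qf M a := by
    unfold qf
    rw [Matrix.neg_mulVec, dotProduct_neg, Complex.neg_re]
  rw [e, abs_neg]
  exact hM.2 a

theorem ex_neg {γ : Type} [Fintype γ] [DecidableEq γ] {m q : ℕ} (F : Fin m → γ)
    (M : Matrix (Fin q → Fin m × γ) (Fin q → Fin m × γ) ℂ) : ex F (-M) = - ex F M := by
  unfold ex qf
  rw [Matrix.neg_mulVec, dotProduct_neg, Complex.neg_re]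

theorem EF_sq_le {γ : Type} [Fintype γ] [DecidableEq γ] (w : γ → ℝ) (hw : Pw w) (m : ℕ)
    (g : (Fin m → γ) → ℝ) : EF w m g ^ 2 ≤ EF w m (fun F => g F ^ 2) := by
  set c := EF w m g with hc
  have h := EF_nonneg w hw.1 m (fun F => (g F - c) ^ 2) fun F => sq_nonneg _
  have e : EF w m (fun F => (g F - c) ^ 2) = EF w m (fun F => g F ^ 2) - c ^ 2 := by
    have e1 : (fun F => (g F - c) ^ 2) = fun F => (g F ^ 2 + (-(2 * c)) * g F) + c ^ 2 := by
      funext F; ring
    rw [e1, EF_add w m (fun F => g F ^ 2 + (-(2 * c)) * g F) (fun _ => c ^ 2),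
      EF_add w m (fun F => g F ^ 2) (fun F => (-(2 * c)) * g F), EF_mul, EF_const w hw, ← hc]
    ring
  rw [e] at h
  linarith

theorem one_side (hDFA : T_DFA) (hDFB : T_DFB) (hEXD : T_EXD) (hNRM : T_NRM)
    {γ : Type} [Fintype γ] [DecidableEq γ] (w : γ → ℝ) (hw : Pw w) (m q : ℕ)
    (M : Matrix (Fin q → Fin m × γ) (Fin q → Fin m × γ) ℂ) (s : ℝ) (hm : 0 < m) (hM : Obs M)
    (hs : 0 < s) (hs1 : s ≤ 1) :
    EF w m (fun F => ind (s < ex F M - EF w m (fun F => ex F M))) ≤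
      Real.exp (-(s ^ 2 * m / (1728 * (q + 1) ^ 4))) := by
  have hm' : (0 : ℝ) < m := by exact_mod_cast hm
  set g : (Fin m → γ) → ℝ := fun F => Real.sqrt (qf (half M) (fq q F)) with hg
  have hsum : ∀ F : Fin m → γ, ∑ x, ‖fq q F x‖ ^ 2 = 1 := by
    intro F
    obtain ⟨-, h, -⟩ := hNRM γ m q F w M hm hM
    unfold nm at h
    rwa [Real.sqrt_eq_one] at h
  have hf : ∀ F : Fin m → γ, qf (half M) (fq q F) = (1 + ex F M) / 2 := by
    intro F
    rw [qf_half, hsum F]
    rfl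
  have hex : ∀ F : Fin m → γ, |ex F M| ≤ 1 := by
    intro F
    have := hM.2 (fq q F)
    rwa [hsum F] at this
  have hf0 : ∀ F : Fin m → γ, 0 ≤ (1 + ex F M) / 2 := by
    intro F
    have := abs_le.1 (hex F)
    linarith [this.1]
  have hgsq : ∀ F, g F ^ 2 = (1 + ex F M) / 2 := by
    intro F
    simp only [hg]
    rw [hf F, Real.sq_sqrt (hf0 F)]
  have hg0 : ∀ F, 0 ≤ g F := fun F => Real.sqrt_nonneg _
  have hg1 : ∀ F, g F ≤ 1 := by
    intro F
    have h1 := hgsq F
    have h2 := abs_le.1 (hex F)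
    nlinarith [hg0 F, h2.2]
  set V : ℝ := 12 * (q + 1) ^ 4 / m with hV
  have hVpos : 0 < V := by positivity
  have hdiff : ∀ (F C : Fin m → γ),
      ∑ i, max 0 (g F - g (Function.update F i (C i))) ^ 2 ≤ V := by
    intro F C
    obtain ⟨y, hy, hy2⟩ := hDFA (Fin q → Fin m × γ) (half M) (eff_half M hM) (fq q F)
    have h1 := hDFB γ m q F C y hm hy
    have h2 : ∑ i, max 0 (g F - g (Function.update F i (C i))) ^ 2 ≤
        ∑ i, ‖∑ s, star (y s) * (fq q F s - fq q (Function.update F i (C i)) s)‖ ^ 2 := by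
      refine Finset.sum_le_sum fun i _ => ?_
      have h3 := hy2 (fq q (Function.update F i (C i)))
      have h4 : max 0 (g F - g (Function.update F i (C i))) ≤
          ‖∑ s, star (y s) * (fq q F s - fq q (Function.update F i (C i)) s)‖ :=
        max_le (norm_nonneg _) h3
      exact pow_le_pow_left₀ (le_max_left _ _) h4 2
    refine (h2.trans h1).trans ?_
    rw [hV]
    have h5 : (12 : ℝ) * q ^ 4 ≤ 12 * (q + 1) ^ 4 := by
      have : (q : ℝ) ^ 4 ≤ (q + 1) ^ 4 := pow_le_pow_left₀ (by positivity) (by linarith) 4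
      linarith
    exact div_le_div_of_nonneg_right h5 hm'.le
  have h6 := hEXD γ w hw m g V hVpos.le hdiff (s / 6) (by positivity)
  have e1 : -((s / 6) ^ 2 / (4 * V)) = -(s ^ 2 * m / (1728 * (q + 1) ^ 4)) := by
    rw [hV]
    have : (0 : ℝ) < (q + 1) ^ 4 := by positivity
    field_simp
    norm_num
  rw [e1] at h6
  refine le_trans ?_ h6
  refine EF_mono w hw.1 m _ _ fun F => ?_
  refine ind_mono _ _ ?_
  intro hF
  by_contra hc
  push Not at hc
  have h7 : g F ^ 2 ≤ (EF w m g + s / 6) ^ 2 := pow_le_pow_left₀ (hg0 F) hc 2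
  have h8 : 0 ≤ EF w m g := EF_nonneg w hw.1 m g hg0
  have h9 : EF w m g ≤ 1 := by
    rw [← EF_const w hw m 1]
    exact EF_mono w hw.1 m _ _ hg1
  have h10 := EF_sq_le w hw m g
  have h11 : EF w m (fun F => g F ^ 2) = (1 + EF w m (fun F => ex F M)) / 2 := by
    have e2 : (fun F : Fin m → γ => g F ^ 2) = fun F => (1 / 2 : ℝ) + (1 / 2 : ℝ) * ex F M := by
      funext F
      rw [hgsq F]; ring
    rw [e2, EF_add w m (fun _ => (1 / 2 : ℝ)) (fun F => (1 / 2 : ℝ) * ex F M), EF_const w hw,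
      EF_mul]
    ring
  rw [h11] at h10
  rw [hgsq F] at h7
  nlinarith [mul_nonneg hs.le h8, mul_le_mul_of_nonneg_left h9 hs.le]

theorem pf_CNC (hDFA : T_DFA) (hDFB : T_DFB) (hEXD : T_EXD) (hNRM : T_NRM) : T_CNC := by
  intro γ _ _ w hw m q M s hm hM hs hs1
  have h1 := one_side hDFA hDFB hEXD hNRM w hw m q M s hm hM hs hs1
  have h2 := one_side hDFA hDFB hEXD hNRM w hw m q (-M) s hm (obs_neg M hM) hs hs1
  have e : EF w m (fun F => ex F (-M)) = - EF w m (fun F => ex F M) := by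
    have e1 : (fun F : Fin m → γ => ex F (-M)) = fun F => (-1 : ℝ) * ex F M := by
      funext F
      rw [ex_neg]; ring
    rw [e1, EF_mul]; ring
  have h3 : EF w m (fun F => ind (s < |ex F M - EF w m (fun F => ex F M)|)) ≤
      EF w m (fun F => ind (s < ex F M - EF w m (fun F => ex F M)) +
        ind (s < ex F (-M) - EF w m (fun F => ex F (-M)))) := by
    refine EF_mono w hw.1 m _ _ fun F => ?_
    refine le_trans (ind_mono _ _ ?_) (ind_or _ _)
    intro h
    rcases lt_abs.1 h with h | h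
    · exact Or.inl h
    · right
      rw [e, ex_neg]
      linarith
  refine h3.trans ?_
  rw [EF_add]
  linarith

end Pool.Agent.H93.SQ.CNC
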