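import Pool.Agent.H75.SQ.Basic

set_option autoImplicit false

open Finset Matrix Pool.Agent.H75.SQ

namespace Pool.Agent.H93.SQ.HYB

theorem pf_HYB (hHYA : T_HYA) : T_HYB := by
  intro γ _ _ q m A Ω _ p v v0 T P x hp hx hP
  have hx2 : 0 < x ^ 2 := by positivity
  -- pointwise
  have key : ∀ ω, ind (x < |A.pr T (v ω) - A.pr T v0|) ≤
      16 * T / x ^ 2 * ∑ t ∈ Finset.range T, ∑ y, ind (v ω y.1 ≠ v0 y.1) * ‖A.st v0 t y‖ ^ 2 := by
    intro ω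
    obtain ⟨-, -, h3⟩ := hHYA γ q m A (v ω) v0
    obtain ⟨h4, h5⟩ := h3 T
    set N := ∑ t ∈ Finset.range T, ∑ y, ind (v ω y.1 ≠ v0 y.1) * ‖A.st v0 t y‖ ^ 2 with hN
    set d := |A.pr T (v ω) - A.pr T v0| with hd
    set D := nm (fun y => A.st (v ω) T y - A.st v0 T y) with hD
    have hd0 : 0 ≤ d := abs_nonneg _
    have hdd : d ^ 2 ≤ 16 * T * N := by
      have := pow_le_pow_left₀ hd0 h4 2
      nlinarith
    by_cases h : x < d
    · rw [ind_true _ h]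
      rw [div_mul_eq_mul_div, le_div_iff₀ hx2, one_mul]
      have := pow_le_pow_left₀ hx.le h.le 2
      linarith
    · rw [ind_false _ h]
      have hN0 : 0 ≤ N := Finset.sum_nonneg fun t _ => Finset.sum_nonneg fun y _ =>
        mul_nonneg (ind_nonneg _) (sq_nonneg _)
      positivity
  have h1 : ∑ ω, p ω * ind (x < |A.pr T (v ω) - A.pr T v0|) ≤
      ∑ ω, p ω * (16 * T / x ^ 2 *
        ∑ t ∈ Finset.range T, ∑ y, ind (v ω y.1 ≠ v0 y.1) * ‖A.st v0 t y‖ ^ 2) :=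
    Finset.sum_le_sum fun ω _ => mul_le_mul_of_nonneg_left (key ω) (hp.1 ω)
  refine h1.trans ?_
  have h2 : ∑ ω, p ω * (16 * T / x ^ 2 *
        ∑ t ∈ Finset.range T, ∑ y, ind (v ω y.1 ≠ v0 y.1) * ‖A.st v0 t y‖ ^ 2) =
      16 * T / x ^ 2 * ∑ t ∈ Finset.range T, ∑ y,
        (∑ ω, p ω * ind (v ω y.1 ≠ v0 y.1)) * ‖A.st v0 t y‖ ^ 2 := by
    simp only [Finset.mul_sum, Finset.sum_mul]
    rw [Finset.sum_comm]
    refine Finset.sum_congr rfl fun t _ => ?_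
    rw [Finset.sum_comm]
    refine Finset.sum_congr rfl fun y _ => ?_
    refine Finset.sum_congr rfl fun ω _ => ?_
    ring
  rw [h2]
  have h3 : ∑ t ∈ Finset.range T, ∑ y,
        (∑ ω, p ω * ind (v ω y.1 ≠ v0 y.1)) * ‖A.st v0 t y‖ ^ 2 ≤ T * P := by
    have h4 : ∀ t ∈ Finset.range T, ∑ y,
        (∑ ω, p ω * ind (v ω y.1 ≠ v0 y.1)) * ‖A.st v0 t y‖ ^ 2 ≤ P := by
      intro t _
      have h5 : ∑ y, ‖A.st v0 t y‖ ^ 2 = 1 := by
        obtain ⟨h6, -, -⟩ := hHYA γ q m A v0 v0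
        have h7 := h6 t
        unfold nm at h7
        rwa [Real.sqrt_eq_one] at h7
      calc ∑ y, (∑ ω, p ω * ind (v ω y.1 ≠ v0 y.1)) * ‖A.st v0 t y‖ ^ 2
          ≤ ∑ y, P * ‖A.st v0 t y‖ ^ 2 :=
            Finset.sum_le_sum fun y _ => mul_le_mul_of_nonneg_right (hP y.1) (sq_nonneg _)
        _ = P := by rw [← Finset.mul_sum, h5, mul_one]
    calc _ ≤ ∑ _t ∈ Finset.range T, P := Finset.sum_le_sum h4
      _ = T * P := by rw [Finset.sum_const, Finset.card_range, nsmul_eq_mul]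
  calc 16 * T / x ^ 2 * _ ≤ 16 * T / x ^ 2 * (T * P) :=
        mul_le_mul_of_nonneg_left h3 (by positivity)
    _ = 16 * T ^ 2 * P / x ^ 2 := by ring

end Pool.Agent.H93.SQ.HYB
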