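import Pool.Agent.H75.SQ.Basic

set_option autoImplicit false

open Finset Matrix Pool.Agent.H75.SQ

namespace Pool.Agent.H93.SQ.TPW

theorem nm_eq {ι : Type} [Fintype ι] (a : ι → ℂ) :
    nm a = ‖(WithLp.toLp 2 a : EuclideanSpace ℂ ι)‖ := by
  rw [EuclideanSpace.norm_eq]
  rfl

theorem nm_add {ι : Type} [Fintype ι] (a b : ι → ℂ) :
    nm (fun x => a x + b x) ≤ nm a + nm b := by
  rw [nm_eq, nm_eq a, nm_eq b]
  exact norm_add_le (WithLp.toLp 2 a : EuclideanSpace ℂ ι) (WithLp.toLp 2 b)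

theorem nm_sq {ι : Type} [Fintype ι] (a : ι → ℂ) : nm a ^ 2 = ∑ x, ‖a x‖ ^ 2 :=
  Real.sq_sqrt (Finset.sum_nonneg fun _ _ => sq_nonneg _)

theorem nm_nonneg {ι : Type} [Fintype ι] (a : ι → ℂ) : 0 ≤ nm a := Real.sqrt_nonneg _

theorem nm_cons {ι : Type} [Fintype ι] (q : ℕ) (f : ι → ℂ) (g : (Fin q → ι) → ℂ) :
    nm (fun s : Fin (q + 1) → ι => f (s 0) * g (fun i => s i.succ)) = nm f * nm g := by
  have h : nm (fun s : Fin (q + 1) → ι => f (s 0) * g (fun i => s i.succ)) ^ 2 =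
      (nm f * nm g) ^ 2 := by
    rw [mul_pow, nm_sq, nm_sq, nm_sq, ← (Fin.consEquiv fun _ : Fin (q + 1) => ι).sum_comp,
      Fintype.sum_prod_type, Finset.sum_mul_sum]
    refine Finset.sum_congr rfl fun C _ => Finset.sum_congr rfl fun F _ => ?_
    rw [norm_mul, mul_pow]
    rfl
  exact (sq_eq_sq₀ (nm_nonneg _) (mul_nonneg (nm_nonneg _) (nm_nonneg _))).1 h

theorem main (ι : Type) [Fintype ι] (δ : ℝ) (hδ : 0 ≤ δ) (q : ℕ) : ∀ (a b : Fin q → ι → ℂ),
    (∀ i, nm (a i) ≤ 1) → (∀ i, nm (fun x => a i x - b i x) ≤ δ) →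
    nm (fun s : Fin q → ι => ∏ i, a i (s i) - ∏ i, b i (s i)) ≤ (1 + δ) ^ q - 1 ∧
    nm (fun s : Fin q → ι => ∏ i, a i (s i)) ≤ 1 ∧
    nm (fun s : Fin q → ι => ∏ i, b i (s i)) ≤ (1 + δ) ^ q := by
  induction q with
  | zero =>
    intro a b _ _
    refine ⟨?_, ?_, ?_⟩ <;> simp [nm]
  | succ q ih =>
    intro a b ha hb
    obtain ⟨h1, h2, h3⟩ := ih (fun i => a i.succ) (fun i => b i.succ) (fun i => ha _)
      (fun i => hb _)
    have hb0 : nm (b 0) ≤ 1 + δ := by
      have e : b 0 = fun x => a 0 x + -(a 0 x - b 0 x) := by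
        funext x; ring
      rw [e]
      refine (nm_add _ _).trans ?_
      have e2 : nm (fun x => -(a 0 x - b 0 x)) = nm (fun x => a 0 x - b 0 x) := by
        unfold nm
        simp only [norm_neg]
      rw [e2]
      exact add_le_add (ha 0) (hb 0)
    have k1 : (1 : ℝ) ≤ (1 + δ) ^ q := one_le_pow₀ (by linarith)
    refine ⟨?_, ?_, ?_⟩
    · have e : (fun s : Fin (q + 1) → ι => ∏ i, a i (s i) - ∏ i, b i (s i)) = fun s =>
          (fun s : Fin (q + 1) → ι => a 0 (s 0) * (fun t : Fin q → ι =>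
            ∏ i, a i.succ (t i) - ∏ i, b i.succ (t i)) (fun i => s i.succ)) s +
          (fun s : Fin (q + 1) → ι => (fun x => a 0 x - b 0 x) (s 0) * (fun t : Fin q → ι =>
            ∏ i, b i.succ (t i)) (fun i => s i.succ)) s := by
        funext s
        rw [Fin.prod_univ_succ, Fin.prod_univ_succ]
        ring
      rw [e]
      refine (nm_add _ _).trans ?_
      have d1 := nm_cons q (a 0) (fun t : Fin q → ι => ∏ i, a i.succ (t i) - ∏ i, b i.succ (t i))
      have d2 := nm_cons q (fun x => a 0 x - b 0 x) (fun t : Fin q → ι => ∏ i, b i.succ (t i))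
      refine (le_of_eq (congrArg₂ (· + ·) d1 d2)).trans ?_
      have c1 := mul_le_mul (ha 0) h1 (nm_nonneg _) zero_le_one
      have c2 := mul_le_mul (hb 0) h3 (nm_nonneg _) hδ
      have e3 : (1 + δ) ^ (q + 1) - 1 = 1 * ((1 + δ) ^ q - 1) + δ * (1 + δ) ^ q := by ring
      rw [e3]
      exact add_le_add c1 c2
    · have e : (fun s : Fin (q + 1) → ι => ∏ i, a i (s i)) = fun s =>
          a 0 (s 0) * (fun t : Fin q → ι => ∏ i, a i.succ (t i)) (fun i => s i.succ) := by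
        funext s
        rw [Fin.prod_univ_succ]
      rw [e]
      have d1 := nm_cons q (a 0) (fun t : Fin q → ι => ∏ i, a i.succ (t i))
      refine (le_of_eq d1).trans ?_
      exact mul_le_one₀ (ha 0) (nm_nonneg _) h2
    · have e : (fun s : Fin (q + 1) → ι => ∏ i, b i (s i)) = fun s =>
          b 0 (s 0) * (fun t : Fin q → ι => ∏ i, b i.succ (t i)) (fun i => s i.succ) := by
        funext s
        rw [Fin.prod_univ_succ]
      rw [e, pow_succ']
      have d1 := nm_cons q (b 0) (fun t : Fin q → ι => ∏ i, b i.succ (t i))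
      refine (le_of_eq d1).trans ?_
      exact mul_le_mul hb0 h3 (nm_nonneg _) (by linarith)

theorem pf_TPW : T_TPW := by
  intro ι _ q a b δ ha hb hq
  rcases Nat.eq_zero_or_pos q with h0 | h0
  · subst h0
    refine ⟨?_, ?_, ?_⟩ <;> simp [nm]
  · have hδ : 0 ≤ δ := (nm_nonneg _).trans (hb ⟨0, h0⟩)
    obtain ⟨h1, h2, h3⟩ := main ι δ hδ q a b ha hb
    have hx : (0 : ℝ) ≤ q * δ := by positivity
    have e1 : (1 + δ) ^ q ≤ 1 + 2 * (q * δ) := by
      have c1 : (1 + δ) ^ q ≤ Real.exp (q * δ) := by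
        rw [Real.exp_nat_mul]
        exact pow_le_pow_left₀ (by linarith) (by linarith [Real.add_one_le_exp δ]) q
      have c2 := Real.abs_exp_sub_one_sub_id_le (x := q * δ) (by rw [abs_of_nonneg hx]; linarith)
      have c3 := (abs_le.1 c2).2
      nlinarith
    refine ⟨?_, h2, ?_⟩
    · nlinarith
    · linarith

end Pool.Agent.H93.SQ.TPW
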