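import Pool.Agent.H75.SQ.Basic

set_option autoImplicit false

open Finset Matrix Pool.Agent.H75.SQ

namespace Pool.Agent.H93.SQ.WTS

theorem card_cl (n k : ℕ) : Fintype.card (Cl n k) = (2 * n) ^ k := by
  simp [Cl, mul_comm]

/-- the sum over the clauses of a function of the pattern -/
theorem sum_pat (n k : ℕ) (z : Fin n → Bool) (G : (Fin k → Bool) → ℝ) :
    ∑ C : Cl n k, G (pat z C) = n ^ k * ∑ y, G y := by
  have e : ∑ C : Cl n k, G (pat z C) = ∑ p : (Fin k → Fin n) × (Fin k → Bool), G p.2 := by
    refine Finset.sum_bij' (fun C _ => (fun i => (C i).1, fun i => z (C i).1 == (C i).2))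
      (fun p _ i => (p.1 i, z (p.1 i) == p.2 i)) ?_ ?_ ?_ ?_ ?_
    · intro C _; exact Finset.mem_univ _
    · intro p _; exact Finset.mem_univ _
    · intro C _
      funext i
      refine Prod.ext rfl ?_
      cases h1 : z (C i).1 <;> cases h2 : (C i).2 <;> simp [h1, h2]
    · intro p _
      refine Prod.ext rfl ?_
      funext i
      cases h1 : z (p.1 i) <;> cases h2 : p.2 i <;> simp [h1, h2]
    · intro C _
      rfl
  rw [e, Fintype.sum_prod_type]
  change ∑ _x : Fin k → Fin n, ∑ y, G y = _
  rw [Finset.sum_const, Finset.card_univ]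
  simp

theorem pf_WTS : T_WTS := by
  intro n k r Q z hn hQ
  have hn' : (0 : ℝ) < n := by exact_mod_cast hn
  have hpos : (0 : ℝ) < (2 * n) ^ k := by positivity
  have hpc : ∀ C : Cl n k, pc Q z C = uc C * (2 ^ k * Q (pat z C)) := by
    intro C
    unfold pc uc
    rw [mul_pow]
    field_simp
  refine ⟨⟨?_, ?_⟩, ⟨?_, ?_⟩, hpc, ?_, ?_, ?_, ?_⟩
  · intro C
    unfold uc
    positivity
  · unfold uc
    rw [Finset.sum_const, Finset.card_univ, card_cl, nsmul_eq_mul]
    push_cast
    field_simp
  · intro C
    unfold pc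
    exact div_nonneg (hQ.nonneg _) (by positivity)
  · unfold pc
    rw [← Finset.sum_div, sum_pat n k z Q, hQ.sum]
    field_simp
  · unfold dl uc
    rw [Real.sq_sqrt (Finset.sum_nonneg fun _ _ => sq_nonneg _), Finset.sum_const,
      Finset.card_univ, card_cl, nsmul_eq_mul]
    push_cast
    field_simp
  · unfold dl pc
    rw [Real.sq_sqrt (Finset.sum_nonneg fun _ _ => sq_nonneg _)]
    have e : ∑ C : Cl n k, (Q (pat z C) / (n : ℝ) ^ k) ^ 2 =
        (∑ C : Cl n k, (fun y => Q y ^ 2) (pat z C)) / ((n : ℝ) ^ k) ^ 2 := by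
      rw [Finset.sum_div]
      exact Finset.sum_congr rfl fun C _ => by rw [div_pow]
    rw [e, sum_pat n k z (fun y => Q y ^ 2), mul_pow]
    field_simp
  · have h := sq_sum_le_card_mul_sum_sq (s := (Finset.univ : Finset (Fin k → Bool))) (f := Q)
    rw [hQ.sum, Finset.card_univ] at h
    simpa using h
  · by_contra hc
    push Not at hc
    have h := hQ.indep Finset.univ (fun _ => false) (by simpa using hc)
    have e : (Finset.univ.filter fun y : Fin k → Bool => ∀ i ∈ Finset.univ, y i = false) =
        {fun _ => false} := by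
      ext y
      simp only [Finset.mem_filter, Finset.mem_univ, true_and, Finset.mem_singleton,
        forall_const]
      constructor
      · intro h; funext i; exact h i
      · intro h i; rw [h]
    rw [e, Finset.sum_singleton, hQ.sat] at h
    have : (0 : ℝ) < (1 / 2) ^ (Finset.univ : Finset (Fin k)).card := by positivity
    linarith

end Pool.Agent.H93.SQ.WTS
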